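import Pool.Agent.K3h88.Erde.Stm2

/-!
# Erde brick FA: from sequences to subgraphs isomorphic to a path
-/

set_option autoImplicit false

namespace Pool.Agent.K3h12.Erde

open Pool.Agent.K3h88.Erde

lemma cubeE_iff (n : ℕ) (x y : Fin n → Bool) : s(x, y) ∈ cubeE (Fin n) ↔ (cube n).Adj x y := by
  have key : ∀ (x : Fin n → Bool) (i : Fin n), ∃! j, x j ≠ Function.update x i (!x i) j := by
    intro x i
    refine ⟨i, ?_, ?_⟩
    · simp
    · intro j hj
      by_contra hne
      apply hj
      simp [Function.update_of_ne hne]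
  constructor
  · rintro ⟨z, i, h⟩
    rcases Sym2.eq_iff.1 h with ⟨rfl, rfl⟩ | ⟨rfl, rfl⟩
    · exact key x i
    · exact ((cube n).symm.symm _ _ (key y i) : _)
  · rintro ⟨i, hi, h2⟩
    refine ⟨x, i, ?_⟩
    have : y = Function.update x i (!x i) := by
      funext j
      by_cases hj : j = i
      · subst hj
        rw [Function.update_self]
        revert hi
        cases x j <;> cases y j <;> simp
      · rw [Function.update_of_ne hj]
        by_contra hne
        exact hj (h2 j fun h => hne h.symm)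
    rw [← this]

lemma cubeE_eq (n : ℕ) : cubeE (Fin n) = (cube n).edgeSet := by
  ext e
  induction e using Sym2.ind with
  | _ x y =>
    rw [cubeE_iff]
    rfl

/-- the subgraph of a path -/
def pathSub {V : Type} (G : SimpleGraph V) (f : ℕ → V) (k : ℕ) (h : pE f k ⊆ G.edgeSet) :
    G.Subgraph where
  verts := f '' Set.Iic k
  Adj x y := s(x, y) ∈ pE f k
  adj_sub := fun {x y} hxy => h hxy
  edge_vert := by
    rintro x y ⟨j, hj, hxy⟩
    rcases Sym2.eq_iff.1 hxy with ⟨rfl, -⟩ | ⟨rfl, -⟩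
    · exact ⟨j, hj.le, rfl⟩
    · exact ⟨j + 1, hj, rfl⟩
  symm := by
    constructor
    intro x y hxy
    rw [Sym2.eq_swap]
    exact hxy

lemma pathSub_edgeSet {V : Type} (G : SimpleGraph V) (f : ℕ → V) (k : ℕ)
    (h : pE f k ⊆ G.edgeSet) : (pathSub G f k h).edgeSet = pE f k := by
  ext e
  induction e using Sym2.ind with
  | _ x y => exact Iff.rfl

lemma pathSub_iso {V : Type} (G : SimpleGraph V) (f : ℕ → V) (k : ℕ)
    (h : pE f k ⊆ G.edgeSet) (hf : Set.InjOn f (Set.Iic k)) :
    Nonempty ((pathSub G f k h).coe ≃g SimpleGraph.pathGraph (k + 1)) := by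
  let g : Fin (k + 1) → (pathSub G f k h).verts := fun j =>
    ⟨f j, ⟨(j : ℕ), Nat.lt_succ_iff.1 j.2, rfl⟩⟩
  have hg : Function.Bijective g := by
    constructor
    · intro i j hij
      have h1 : f i = f j := congrArg Subtype.val hij
      exact Fin.ext (hf (Nat.lt_succ_iff.1 i.2) (Nat.lt_succ_iff.1 j.2) h1)
    · rintro ⟨x, j, hj, rfl⟩
      exact ⟨⟨j, Nat.lt_succ_iff.2 hj⟩, rfl⟩
  have hadj : ∀ i j : Fin (k + 1), (pathSub G f k h).coe.Adj (g i) (g j) ↔
      (SimpleGraph.pathGraph (k + 1)).Adj i j := by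
    intro i j
    rw [SimpleGraph.pathGraph_adj]
    constructor
    · rintro ⟨l, hl, h1⟩
      have hi : (i : ℕ) ∈ Set.Iic k := Nat.lt_succ_iff.1 i.2
      have hj : (j : ℕ) ∈ Set.Iic k := Nat.lt_succ_iff.1 j.2
      rcases Sym2.eq_iff.1 h1 with ⟨h2, h3⟩ | ⟨h2, h3⟩
      · have e1 := hf hi (Set.mem_Iic.2 hl.le) h2
        have e2 := hf hj (Set.mem_Iic.2 hl) h3
        left
        omega
      · have e1 := hf hi (Set.mem_Iic.2 hl) h2
        have e2 := hf hj (Set.mem_Iic.2 hl.le) h3
        right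
        omega
    · rintro (h1 | h1)
      · refine ⟨(i : ℕ), by have := j.2; omega, ?_⟩
        change s(f i, f j) = _
        rw [← h1]
      · refine ⟨(j : ℕ), by have := i.2; omega, ?_⟩
        change s(f i, f j) = _
        rw [← h1, Sym2.eq_swap]
  exact ⟨(RelIso.mk (Equiv.ofBijective g hg) (fun {i j} => hadj i j)).symm⟩

theorem fa : StmFA := by
  intro n k r _ hD
  obtain ⟨F, hF, hdis, hU⟩ := hD
  choose f hf hfE using hF
  have hsub : ∀ i, pE (f i) k ⊆ (cube n).edgeSet := by
    intro i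
    rw [← cubeE_eq, hU, ← hfE]
    exact Set.subset_iUnion F i
  refine ⟨Fin r, fun i => pathSub (cube n) (f i) k (hsub i), fun i =>
    pathSub_iso (cube n) (f i) k (hsub i) (hf i), ?_, ?_⟩
  · intro i j hij
    rw [pathSub_edgeSet, pathSub_edgeSet, ← hfE, ← hfE]
    exact hdis i j hij
  · have : ∀ i, (pathSub (cube n) (f i) k (hsub i)).edgeSet = F i := fun i => by
      rw [pathSub_edgeSet, ← hfE]
    rw [Set.iUnion_congr this, ← hU, cubeE_eq]

end Pool.Agent.K3h12.Erde
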