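import Pool.Agent.K3h88.Erde.Stm2

/-!
# Erde brick LAM: the colouring function
-/

set_option autoImplicit false

namespace Pool.Agent.K3h12.Erde

open Pool.Agent.K3h88.Erde

section
variable {m a : ℕ} (G : GD m a) (L : ℕ)

/-- the four cases of a stage -/
lemma lam_cases (s : ℕ) (z : Fin m → ZMod L) (l : ℕ) :
    G.lam L (s + 1) z l = G.lam L s z l ∨
    (G.A L s z ∧ G.nx s + 1 < m ∧ l = s ∧ G.lam L (s + 1) z l = G.nx s) ∨
    (G.A L s z ∧ G.nx s + 1 < m ∧ l = G.nx s ∧ G.lam L (s + 1) z l = s) ∨
    (G.A L s z ∧ ¬ G.nx s + 1 < m ∧ l = s ∧ G.lam L (s + 1) z l = s + 1) := by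
  classical
  by_cases hA : G.A L s z
  · by_cases hn : G.nx s + 1 < m
    · by_cases hr : G.role L s z
      · by_cases h1 : l = s
        · right; left
          refine ⟨hA, hn, h1, ?_⟩
          rw [GD.lam, if_pos hA, if_pos hn, if_pos hr, if_pos h1]
        · by_cases h2 : l = G.nx s
          · right; right; left
            refine ⟨hA, hn, h2, ?_⟩
            rw [GD.lam, if_pos hA, if_pos hn, if_pos hr, if_neg h1, if_pos h2]
          · left
            rw [GD.lam, if_pos hA, if_pos hn, if_pos hr, if_neg h1, if_neg h2]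
      · left
        rw [GD.lam, if_pos hA, if_pos hn, if_neg hr]
    · by_cases h1 : l = s
      · right; right; right
        refine ⟨hA, hn, h1, ?_⟩
        rw [GD.lam, if_pos hA, if_neg hn, if_pos h1]
      · left
        rw [GD.lam, if_pos hA, if_neg hn, if_neg h1]
  · left
    rw [GD.lam, if_neg hA]

/-- the last index -/
def lastI (G : GD m a) : Fin m := ⟨m - 1, by have := G.hm; omega⟩

lemma cast_val_inj (hL : 4 ≤ L) {x y : ZMod 2}
    (h : ((x.val : ℕ) : ZMod L) = ((y.val : ℕ) : ZMod L)) : x = y := by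
  have hx : x.val < 2 := ZMod.val_lt x
  have hy : y.val < 2 := ZMod.val_lt y
  have h1 := (ZMod.natCast_eq_natCast_iff' _ _ _).1 h
  rw [Nat.mod_eq_of_lt (by omega), Nat.mod_eq_of_lt (by omega)] at h1
  exact ZMod.val_injective 2 h1

lemma vv_eq (hL : 4 ≤ L) {j s : ℕ} {z : Fin m → ZMod L} (hj : G.A L j z) (hs : G.A L s z) :
    G.b (j + 1) (G.κ j) = G.b (s + 1) (G.κ s) := by
  apply cast_val_inj L hL
  have h1 := hj.1 (lastI G) rfl
  have h2 := hs.1 (lastI G) rfl
  rw [h1] at h2
  exact h2

/-- the path does not flip the coordinate between `j` and `nx j` -/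
lemma b_const (j i : ℕ) (h1 : j + 1 ≤ i) (h2 : i ≤ G.nx j) (h3 : i < m) :
    G.b i (G.κ j) = G.b (j + 1) (G.κ j) := by
  induction i with
  | zero => omega
  | succ i ih =>
    by_cases h : i = j
    · rw [h]
    · have h4 := ih (by omega) (by omega) (by omega)
      rw [G.bstep i h3, Pi.add_apply, h4, Pi.single_eq_of_ne, add_zero]
      exact fun h5 => G.nxmin i j (by omega) (by omega) h5.symm

lemma no_touch (hL : 4 ≤ L) {j s : ℕ} {z : Fin m → ZMod L} (hjs : j < s) (hs1 : s + 1 < m)
    (hj : G.A L j z) (hs : G.A L s z) (hn : G.nx j + 1 < m) (h : s = G.nx j) : False := by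
  have h1 : G.κ s = G.κ j := by rw [h]; exact G.nxk j hn
  have h2 := vv_eq G L hL hj hs
  have h3 := b_const G j s (by omega) h.le (by omega)
  rw [G.bstep s hs1, Pi.add_apply, Pi.single_eq_same, h1, h3] at h2
  have h4 : (1 : ZMod 2) = 0 := by
    have := congrArg (fun x => x - G.b (j + 1) (G.κ j)) h2
    simpa using this.symm
  exact one_ne_zero h4

theorem lamp : StmLam := by
  intro m a G L hL _
  refine ⟨?_, ?_, ?_, ?_, ?_, ?_⟩
  · intro s z hs1 hA
    have key : ∀ j, j ≤ s → G.lam L j z s = s := by
      intro j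
      induction j with
      | zero => intro _; rfl
      | succ j ih =>
        intro hj
        rcases lam_cases G L j z s with h | ⟨_, _, h, _⟩ | ⟨hAj, hn, h, _⟩ | ⟨_, _, h, _⟩
        · rw [h]
          exact ih (by omega)
        · omega
        · exact (no_touch G L hL (by omega) hs1 hAj hA hn h).elim
        · omega
    exact key s le_rfl
  · intro s z hn hA
    have key : ∀ j, j ≤ s → G.lam L j z (G.nx s) = G.nx s := by
      intro j
      induction j with
      | zero => intro _; rfl
      | succ j ih =>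
        intro hj
        have hlt := G.nxlt s
        rcases lam_cases G L j z (G.nx s) with h | ⟨_, _, h, _⟩ | ⟨_, hnj, h, _⟩ | ⟨_, _, h, _⟩
        · rw [h]
          exact ih (by omega)
        · omega
        · exfalso
          have h1 := G.nxk s hn
          have h2 := G.nxk j hnj
          rw [← h, h1] at h2
          exact G.nxmin s j (by omega) (by omega) h2
        · omega
    exact key s le_rfl
  · intro s z
    induction s with
    | zero => intro _; rfl
    | succ s ih =>
      intro hs
      rcases lam_cases G L s z (m - 1) with h | ⟨_, _, h, _⟩ | ⟨_, _, h, _⟩ | ⟨_, _, h, _⟩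
      · rw [h]
        exact ih (by omega)
      · omega
      · omega
      · omega
  · intro s z l hz
    have hA : ∀ s, ¬ G.A L s z := by
      intro s h
      have h1 := h.1 (lastI G) rfl
      have h2 := hz (lastI G) rfl
      have h3 : (G.b (s + 1) (G.κ s)).val < 2 := ZMod.val_lt _
      have h4 : (G.b (s + 1) (G.κ s)).val = 0 ∨ (G.b (s + 1) (G.κ s)).val = 1 := by omega
      unfold GD.vv at h1
      rcases h4 with h4 | h4
      · rw [h4, Nat.cast_zero] at h1
        exact h2.1 h1
      · rw [h4, Nat.cast_one] at h1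
        exact h2.2 h1
    induction s with
    | zero => rfl
    | succ s ih =>
      rcases lam_cases G L s z l with h | ⟨h, _⟩ | ⟨h, _⟩ | ⟨h, _⟩
      · rw [h]
        exact ih
      · exact (hA s h).elim
      · exact (hA s h).elim
      · exact (hA s h).elim
  · intro s z l
    induction s with
    | zero => intro _ hl; exact hl
    | succ s ih =>
      intro hs hl
      rcases lam_cases G L s z l with h | ⟨_, _, _, h⟩ | ⟨_, _, _, h⟩ | ⟨_, _, _, h⟩
      · rw [h]
        exact ih (by omega) hl
      · omega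
      · omega
      · omega
  · intro s z l
    induction s with
    | zero => intro _ _; exact Or.inl rfl
    | succ s ih =>
      intro hs hl
      rcases lam_cases G L s z l with h | ⟨_, hn, h1, h⟩ | ⟨_, hn, h1, h⟩ | ⟨_, hn, h1, h⟩
      · rw [h]
        rcases ih (by omega) hl with h2 | ⟨h2, h3, h4⟩ | ⟨h2, h3, h4⟩ | ⟨j, h2, h3, h4, h5⟩
        · exact Or.inl h2
        · exact Or.inr (Or.inl ⟨by omega, h3, h4⟩)
        · exact Or.inr (Or.inr (Or.inl ⟨by omega, h3, h4⟩))
        · exact Or.inr (Or.inr (Or.inr ⟨j, by omega, h3, h4, h5⟩))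
      · subst h1
        exact Or.inr (Or.inl ⟨by omega, hn, h⟩)
      · exact Or.inr (Or.inr (Or.inr ⟨s, by omega, h1.symm, hn, h⟩))
      · subst h1
        exact Or.inr (Or.inr (Or.inl ⟨by omega, hn, h⟩))

end

end Pool.Agent.K3h12.Erde
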